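import Pool.Agent.TH54.FK.Core

/-!
# Opposite vertices of base polyhedra with vertices in {0,1,-1}^n (helper54)
-/

set_option autoImplicit false

open Finset

namespace Pool.Agent.Results.MP_f5df30_co.OppositeVertices

universe u

/-- Let `B` be the base polyhedron of a submodular `f` with `f ∅ = 0`, with all vertices in
`{0,1,-1}^V` and `0 ∈ B`. Suppose that `V` has at most five elements, or, more generally, that
if some `x ∈ {0,1,-1}^V` with `x, -x ∈ B` has more than two nonzero coordinates, then some such
`x` has at most one zero coordinate. Then `B` has a vertex `v` such that `-v` is a vertex. -/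
theorem result {V : Type u} [Fintype V] [DecidableEq V] (f : Finset V → ℝ) (hf0 : f ∅ = 0)
    (hsub : ∀ X Y : Finset V, f (X ∪ Y) + f (X ∩ Y) ≤ f X + f Y)
    (B : Set (V → ℝ))
    (hB : B = {x | (∀ X : Finset V, ∑ i ∈ X, x i ≤ f X) ∧ ∑ i, x i = f univ})
    (hvert : ∀ x ∈ Set.extremePoints ℝ B, ∀ i, x i = 0 ∨ x i = 1 ∨ x i = -1)
    (h0 : (0 : V → ℝ) ∈ B)
    (h : Fintype.card V ≤ 5 ∨
      ((∃ x : V → ℝ, (∀ i, x i = 0 ∨ x i = 1 ∨ x i = -1) ∧ x ∈ B ∧ -x ∈ B ∧
          2 < (univ.filter (fun i => x i ≠ 0)).card) →
        ∃ x : V → ℝ, (∀ i, x i = 0 ∨ x i = 1 ∨ x i = -1) ∧ x ∈ B ∧ -x ∈ B ∧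
          (univ.filter (fun i => x i = 0)).card ≤ 1)) :
    ∃ v ∈ Set.extremePoints ℝ B, -v ∈ Set.extremePoints ℝ B := by
  have hBb : B = Pool.Agent.TH54.FK.base f := hB
  rw [hBb] at hvert h0 h ⊢
  obtain ⟨hfu, hpos, hint, hsg, hco⟩ := Pool.Agent.TH54.FK.facts hf0 hsub hvert h0
  by_cases hx : ∃ x : V → ℝ, (∀ i, x i = 0 ∨ x i = 1 ∨ x i = -1) ∧
      x ∈ Pool.Agent.TH54.FK.base f ∧ -x ∈ Pool.Agent.TH54.FK.base f ∧
      2 < (univ.filter (fun i => x i ≠ 0)).card
  · have h1 : ∃ x : V → ℝ, (∀ i, x i = 0 ∨ x i = 1 ∨ x i = -1) ∧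
        x ∈ Pool.Agent.TH54.FK.base f ∧ -x ∈ Pool.Agent.TH54.FK.base f ∧
        (univ.filter (fun i => x i = 0)).card ≤ 1 := by
      rcases h with h | h
      · obtain ⟨x, hv, hxB, hnB, hc⟩ := hx
        refine ⟨x, hv, hxB, hnB, ?_⟩
        have e1 : ∑ i, x i = ((univ.filter (fun i => x i = 1)).card : ℝ) -
            ((univ.filter (fun i => x i = -1)).card : ℝ) := by
          rw [card_filter, card_filter]
          push_cast
          rw [← sum_sub_distrib]
          apply sum_congr rfl
          intro i _
          rcases hv i with h | h | h <;> rw [h] <;> norm_num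
        rw [hxB.2, hfu] at e1
        have e2 : (univ.filter (fun i => x i = 1)).card =
            (univ.filter (fun i => x i = -1)).card := by
          have : ((univ.filter (fun i => x i = 1)).card : ℝ) =
            ((univ.filter (fun i => x i = -1)).card : ℝ) := by linarith
          exact_mod_cast this
        have e3 : (univ.filter (fun i => x i ≠ 0)).card =
            (univ.filter (fun i => x i = 1)).card + (univ.filter (fun i => x i = -1)).card := by
          rw [card_filter, card_filter, card_filter, ← sum_add_distrib]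
          apply sum_congr rfl
          intro i _
          rcases hv i with h | h | h <;> rw [h] <;> norm_num
        have e4 : (univ.filter (fun i => x i = 0)).card +
            (univ.filter (fun i => x i ≠ 0)).card = Fintype.card V := by
          rw [← card_univ]
          exact card_filter_add_card_filter_not (fun i => x i = 0)
        omega
      · exact h hx
    obtain ⟨x, hv, hxB, hnB, hc⟩ := h1
    have hz : ∀ p q, x p = 0 → x q = 0 → p = q := by
      intro p q hp hq
      exact card_le_one.1 hc p (by simpa using hp) q (by simpa using hq)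
    refine ⟨x, Pool.Agent.TH54.FK.one_zero hsub hfu hsg hco hv hxB hz, ?_⟩
    apply Pool.Agent.TH54.FK.one_zero hsub hfu hsg hco _ hnB _
    · intro i
      rcases hv i with h | h | h
      · left; simp [h]
      · right; right; simp [h]
      · right; left; simp [h]
    · intro p q hp hq
      exact hz p q (by simpa using hp) (by simpa using hq)
  · apply Pool.Agent.TH54.FK.small hf0 hsub hvert h0
    intro x hv hxB hnB
    by_contra hc
    push Not at hc
    exact hx ⟨x, hv, hxB, hnB, hc⟩

end Pool.Agent.Results.MP_f5df30_co.OppositeVertices
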